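import Pool.Agent.J4H81.GB.Stm2

/-!
# Project GX: few vectors of signed shifts have a difference with many prime factors (BDX)

After J4H19/MV/Bd.lean (helper19); sums of two shifts are at most `2 X`.
-/

set_option autoImplicit false

namespace Pool.Agent.J4H18.GB

open Finset
open Pool.Agent.J4H32.MV Pool.Agent.J4H81.GB

theorem card_othersG (K : ℕ) (J : Finset ℕ) (i : Fin K) :
    (Fintype.piFinset (fun j : Fin K => if j = i then ({0} : Finset ℕ) else J)).card =
      J.card ^ (K - 1) := by
  rw [Fintype.card_piFinset]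
  have h : ∀ j : Fin K, (if j = i then ({0} : Finset ℕ) else J).card =
      if j = i then 1 else J.card := by
    intro j
    split_ifs <;> simp
  simp_rw [h]
  rw [Finset.prod_ite, prod_const_one, one_mul, prod_const, Finset.filter_not,
    Finset.filter_eq', if_pos (mem_univ i), Finset.card_sdiff_of_subset (by simp)]
  simp

/-- the fibres of a set of tuples -/
theorem fibreG (K : ℕ) (J : Finset ℕ) (i : Fin K) (Bad : Finset (Fin K → ℕ)) (B : ℝ)
    (hBad : ∀ t ∈ Bad, ∀ j, t j ∈ J)
    (h : ∀ t' : Fin K → ℕ, ∃ Ex : Finset ℕ, (Ex.card : ℝ) ≤ B ∧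
      ∀ t ∈ Bad, Function.update t i 0 = t' → t i ∈ Ex) :
    (Bad.card : ℝ) ≤ B * (J.card : ℝ) ^ (K - 1) := by
  classical
  choose Ex hEx hEx' using h
  have h1 := Finset.card_eq_sum_card_fiberwise (s := Bad) (f := fun t => Function.update t i 0)
    (t := Fintype.piFinset (fun j : Fin K => if j = i then ({0} : Finset ℕ) else J)) (by
      intro t ht
      rw [Finset.mem_coe, Fintype.mem_piFinset]
      intro j
      change Function.update t i 0 j ∈ _
      by_cases hj : j = i
      · subst hj
        simp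
      · rw [if_neg hj, Function.update_of_ne hj]
        exact hBad t ht j)
  rw [h1]
  push_cast
  calc ∑ t' ∈ Fintype.piFinset (fun j : Fin K => if j = i then ({0} : Finset ℕ) else J),
      ((Bad.filter (fun t => Function.update t i 0 = t')).card : ℝ) ≤
      ∑ t' ∈ Fintype.piFinset (fun j : Fin K => if j = i then ({0} : Finset ℕ) else J), B := by
        refine sum_le_sum fun t' _ => ?_
        refine le_trans ?_ (hEx t')
        have h2 : (Bad.filter (fun t => Function.update t i 0 = t')).card ≤ (Ex t').card := by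
          apply Finset.card_le_card_of_injOn (fun t => t i)
          · intro t ht
            rw [Finset.mem_coe, mem_filter] at ht
            exact hEx' t' t ht.1 ht.2
          · intro t ht u hu htu
            rw [Finset.mem_coe, mem_filter] at ht hu
            have h3 : Function.update t i 0 = Function.update u i 0 := ht.2.trans hu.2.symm
            funext j
            by_cases hj : j = i
            · subst hj
              exact htu
            · have h4 := congrFun h3 j
              rwa [Function.update_of_ne hj, Function.update_of_ne hj] at h4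
        exact_mod_cast h2
    _ = B * (J.card : ℝ) ^ (K - 1) := by
        rw [sum_const, card_othersG, nsmul_eq_mul]
        push_cast
        ring

theorem sg_neg (w : ℕ) (h : ℤ) : Sg w (-h) = Sg w h := by
  unfold Sg
  rw [Int.natAbs_neg]

theorem low_count (hRK : S_RK) (w X : ℕ) (c : ℤ) (ε : ℝ) (hw : 1 ≤ w) :
    (((Icc 1 X).filter (fun x : ℕ => (-(X : ℤ) ≤ c ∧ c ≤ X) ∧ ((x : ℤ) = c ∨ ε < Sg w ((x : ℤ) - c)))).card : ℝ) ≤
      1 + 16 * X * Real.exp (-(ε * w)) := by
  classical
  have hexp := Real.exp_pos (-(ε * w))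
  by_cases hc : 0 ≤ c
  · have h0 := hRK w X ε hw
    obtain ⟨c, rfl⟩ : ∃ n : ℕ, c = n := ⟨c.toNat, (Int.toNat_of_nonneg hc).symm⟩
    set D : Finset ℕ := (Icc 1 X).filter (fun h : ℕ => ε < Sg w (h : ℤ)) with hD
    have hsub : (Icc 1 X).filter (fun x : ℕ => (-(X : ℤ) ≤ (c : ℤ) ∧ (c : ℤ) ≤ X) ∧
        ((x : ℤ) = (c : ℤ) ∨ ε < Sg w ((x : ℤ) - (c : ℤ)))) ⊆
        {c} ∪ (D.image (fun h => c + h) ∪ D.image (fun h => c - h)) := by
      intro x hx
      rw [mem_filter, mem_Icc] at hx
      obtain ⟨⟨hx1, hx2⟩, hc, hx3⟩ := hx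
      rcases lt_trichotomy x c with h | h | h
      · refine mem_union_right _ (mem_union_right _ (mem_image.2 ⟨c - x, ?_, by omega⟩))
        rw [hD, mem_filter, mem_Icc]
        refine ⟨⟨by omega, by omega⟩, ?_⟩
        rcases hx3 with h3 | h3
        · omega
        · rw [Nat.cast_sub h.le]
          rwa [← sg_neg, neg_sub] at h3
      · exact mem_union_left _ (mem_singleton.2 h)
      · refine mem_union_right _ (mem_union_left _ (mem_image.2 ⟨x - c, ?_, by omega⟩))
        rw [hD, mem_filter, mem_Icc]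
        refine ⟨⟨by omega, by omega⟩, ?_⟩
        rcases hx3 with h3 | h3
        · omega
        · rwa [Nat.cast_sub h.le]
    have h1 := card_le_card hsub
    have h2 : (({c} : Finset ℕ) ∪ (D.image (fun h => c + h) ∪ D.image (fun h => c - h))).card ≤
        1 + (D.card + D.card) := by
      refine (card_union_le _ _).trans (add_le_add (by simp) ((card_union_le _ _).trans ?_))
      exact add_le_add card_image_le card_image_le
    have h3 : (((Icc 1 X).filter (fun x : ℕ => (-(X : ℤ) ≤ (c : ℤ) ∧ (c : ℤ) ≤ X) ∧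
        ((x : ℤ) = (c : ℤ) ∨ ε < Sg w ((x : ℤ) - (c : ℤ))))).card : ℝ) ≤
        1 + (D.card + D.card) := by exact_mod_cast h1.trans h2
    linarith
  · have h0 := hRK w (2 * X) ε hw
    obtain ⟨d, hd⟩ : ∃ n : ℕ, -c = n := ⟨(-c).toNat, (Int.toNat_of_nonneg (by omega)).symm⟩
    have hcd : c = -(d : ℤ) := by omega
    subst hcd
    have h1 : ((Icc 1 X).filter (fun x : ℕ => (-(X : ℤ) ≤ -(d : ℤ) ∧ -(d : ℤ) ≤ X) ∧
        ((x : ℤ) = -(d : ℤ) ∨ ε < Sg w ((x : ℤ) - -(d : ℤ))))).card ≤
        ((Icc 1 (2 * X)).filter (fun h : ℕ => ε < Sg w (h : ℤ))).card := by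
      apply Finset.card_le_card_of_injOn (fun x => x + d)
      · intro x hx
        rw [Finset.mem_coe, mem_filter, mem_Icc] at hx
        obtain ⟨⟨hx1, hx2⟩, ⟨hc1, hc2⟩, hx3⟩ := hx
        rw [Finset.mem_coe, mem_filter, mem_Icc]
        refine ⟨⟨?_, ?_⟩, ?_⟩
        · change 1 ≤ x + d
          omega
        · change x + d ≤ 2 * X
          omega
        · rcases hx3 with h3 | h3
          · omega
          · rw [sub_neg_eq_add] at h3
            push_cast
            exact h3
      · intro x _ y _ hxy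
        exact Nat.add_right_cancel hxy
    have h2 : (((Icc 1 X).filter (fun x : ℕ => (-(X : ℤ) ≤ -(d : ℤ) ∧ -(d : ℤ) ≤ X) ∧
        ((x : ℤ) = -(d : ℤ) ∨ ε < Sg w ((x : ℤ) - -(d : ℤ))))).card : ℝ) ≤
        (((Icc 1 (2 * X)).filter (fun h : ℕ => ε < Sg w (h : ℤ))).card : ℝ) := by exact_mod_cast h1
    have h3 := h2.trans h0
    push_cast at h3
    linarith

open Classical in
/-- one ordered pair, the first one is a free shift -/
theorem one_pairX (hRK : S_RK) (k w X : ℕ) (σ : Fin k → Bool) (ε : ℝ) (hw : 1 ≤ w) (hX : 1 ≤ X) (i : Fin k)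
    (j : Fin (k + 1)) (hij : i.succ ≠ j) :
    (((Fintype.piFinset (fun _ : Fin k => Icc 1 X)).filter (fun x =>
      es σ x i.succ = es σ x j ∨ ε < Sg w (es σ x i.succ - es σ x j))).card : ℝ) ≤
    (X : ℝ) ^ k / X + 16 * (X : ℝ) ^ k * Real.exp (-(ε * w)) := by
  have hX0 : (0 : ℝ) < X := by exact_mod_cast hX
  have hk : 1 ≤ k := Nat.one_le_iff_ne_zero.2 (by rintro rfl; exact i.elim0)
  have hle : ∀ m ∈ Fintype.piFinset (fun _ : Fin k => Icc 1 X), -(X : ℤ) ≤ es σ m j ∧ es σ m j ≤ X := by
    intro m hm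
    rw [Fintype.mem_piFinset] at hm
    refine Fin.cases ?_ (fun l => ?_) j
    · change -(X : ℤ) ≤ 0 ∧ (0 : ℤ) ≤ X
      omega
    · have h1 := (mem_Icc.1 (hm l)).2
      change -(X : ℤ) ≤ (if σ l then -(m l : ℤ) else (m l : ℤ)) ∧ (if σ l then -(m l : ℤ) else (m l : ℤ)) ≤ X
      split_ifs <;> omega
  have hupd : ∀ m : Fin k → ℕ, es σ (Function.update m i 0) j = es σ m j := by
    intro m
    revert hij
    refine Fin.cases ?_ (fun l => ?_) j
    · intro _
      rfl
    · intro hl
      have hl' : l ≠ i := fun h => hl (by rw [h])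
      change (if σ l then -((Function.update m i 0 l : ℕ) : ℤ) else ((Function.update m i 0 l : ℕ) : ℤ)) =
        (if σ l then -(m l : ℤ) else (m l : ℤ))
      rw [Function.update_of_ne hl']
  have h1 := fibreG k (Icc 1 X) i ((Fintype.piFinset (fun _ : Fin k => Icc 1 X)).filter (fun x =>
      es σ x i.succ = es σ x j ∨ ε < Sg w (es σ x i.succ - es σ x j)))
    (1 + 16 * X * Real.exp (-(ε * w))) (by
      intro t ht l
      exact (Fintype.mem_piFinset.1 (mem_filter.1 ht).1) l) (by
      intro t'
      refine ⟨_, low_count hRK w X (if σ i then -(es σ t' j) else es σ t' j) ε hw, ?_⟩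
      intro t ht htt
      rw [mem_filter] at ht
      rw [mem_filter]
      have h2 : es σ t' j = es σ t j := by rw [← htt, hupd]
      have h3 : es σ t i.succ = if σ i then -(t i : ℤ) else (t i : ℤ) := rfl
      have h4 := hle t ht.1
      rw [h2]
      refine ⟨(Fintype.mem_piFinset.1 ht.1) i, ?_, ?_⟩
      · split_ifs <;> omega
      · rw [h3] at ht
        by_cases hs : σ i = true
        · simp only [hs, if_true] at ht ⊢
          rcases ht.2 with h5 | h5
          · left
            omega
          · right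
            rw [← sg_neg] at h5
            have h6 : -(-(t i : ℤ) - es σ t j) = (t i : ℤ) - -(es σ t j) := by ring
            rwa [h6] at h5
        · simp only [hs] at ht ⊢
          exact ht.2)
  rw [Nat.card_Icc, Nat.add_sub_cancel] at h1
  refine h1.trans (le_of_eq ?_)
  obtain ⟨l, rfl⟩ := Nat.exists_eq_succ_of_ne_zero (Nat.one_le_iff_ne_zero.1 hk)
  rw [Nat.succ_eq_add_one, Nat.add_sub_cancel, pow_succ]
  field_simp

theorem t_BDX : S_BDX := by
  intro hRK k w X σ ε hw hX
  classical
  have hX0 : (0 : ℝ) < X := by exact_mod_cast hX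
  set B : ℝ := (X : ℝ) ^ k / X + 16 * (X : ℝ) ^ k * Real.exp (-(ε * w)) with hB
  have hB0 : 0 ≤ B := by positivity
  set Bd : Fin (k + 1) × Fin (k + 1) → Finset (Fin k → ℕ) := fun p =>
    (Fintype.piFinset (fun _ : Fin k => Icc 1 X)).filter (fun x => p.1 ≠ p.2 ∧
      (es σ x p.1 = es σ x p.2 ∨ ε < Sg w (es σ x p.1 - es σ x p.2))) with hBd
  have hone : ∀ p, ((Bd p).card : ℝ) ≤ B := by
    rintro ⟨i, j⟩
    by_cases hij : i = j
    · have : Bd (i, j) = ∅ := by
        rw [hBd]
        apply Finset.filter_eq_empty_iff.2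
        intro m _ h
        exact h.1 hij
      rw [this]
      simpa using hB0
    · revert hij
      refine Fin.cases ?_ (fun i' => ?_) i
      · intro hij
        obtain ⟨j', rfl⟩ : ∃ j', j = Fin.succ j' := Fin.exists_succ_eq.2 (Ne.symm hij)|>.imp
          fun _ h => h.symm
        refine le_trans ?_ (one_pairX hRK k w X σ ε hw hX j' 0 (Ne.symm hij))
        have : Bd (0, Fin.succ j') ⊆ (Fintype.piFinset (fun _ : Fin k => Icc 1 X)).filter (fun x =>
            es σ x j'.succ = es σ x 0 ∨ ε < Sg w (es σ x j'.succ - es σ x 0)) := by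
          intro m hm
          rw [hBd, mem_filter] at hm
          rw [mem_filter]
          refine ⟨hm.1, ?_⟩
          rcases hm.2.2 with h | h
          · exact Or.inl h.symm
          · right
            rwa [← sg_neg, neg_sub] at h
        have h2 := card_le_card this
        refine le_trans ((Nat.cast_le (α := ℝ)).2 h2) (le_of_eq ?_)
        congr!
      · intro hij
        refine le_trans ?_ (one_pairX hRK k w X σ ε hw hX i' j hij)
        have : Bd (Fin.succ i', j) ⊆ (Fintype.piFinset (fun _ : Fin k => Icc 1 X)).filter (fun x =>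
            es σ x i'.succ = es σ x j ∨ ε < Sg w (es σ x i'.succ - es σ x j)) := by
          intro m hm
          rw [hBd, mem_filter] at hm
          rw [mem_filter]
          exact ⟨hm.1, hm.2.2⟩
        have h2 := card_le_card this
        refine le_trans ((Nat.cast_le (α := ℝ)).2 h2) (le_of_eq ?_)
        congr!
  have hsub : (Fintype.piFinset (fun _ : Fin k => Icc 1 X)).filter (fun x =>
      ∃ i j : Fin (k + 1), i ≠ j ∧
        (es σ x i = es σ x j ∨ ε < Sg w (es σ x i - es σ x j))) ⊆ univ.biUnion Bd := by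
    intro m hm
    rw [mem_filter] at hm
    obtain ⟨hm1, i, j, hij, h⟩ := hm
    rw [mem_biUnion]
    refine ⟨(i, j), mem_univ _, ?_⟩
    rw [hBd, mem_filter]
    exact ⟨hm1, hij, h⟩
  calc (((Fintype.piFinset (fun _ : Fin k => Icc 1 X)).filter (fun x =>
      ∃ i j : Fin (k + 1), i ≠ j ∧
        (es σ x i = es σ x j ∨ ε < Sg w (es σ x i - es σ x j)))).card : ℝ)
      ≤ ((univ.biUnion Bd).card : ℝ) := by exact_mod_cast card_le_card hsub
    _ ≤ ∑ p, ((Bd p).card : ℝ) := by exact_mod_cast card_biUnion_le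
    _ ≤ ∑ p : Fin (k + 1) × Fin (k + 1), B := sum_le_sum fun p _ => hone p
    _ = ((k : ℝ) + 1) ^ 2 * B := by
      rw [sum_const, card_univ, Fintype.card_prod, Fintype.card_fin, nsmul_eq_mul]
      push_cast
      ring

end Pool.Agent.J4H18.GB
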